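import Mathlib
import Pool.Agent.Helper85_Leo.Defs
import Pool.Agent.Helper85_Leo.LogP

/-!
# Squad LUB: a uniform bound for the exceptions to Leopoldt's conjecture in one-parameter families

Definitions. `ℤ[X][X]` is the ring of polynomials `f(T, Y)`; the outer variable is `Y`.
-/

set_option autoImplicit false

open Polynomial NumberField
open Pool.Agent.Helper85_Leo (LeopoldtAt)

namespace Pool.Agent.LUB

/-- The specialization `f(t, Y)`, a polynomial over the integers. -/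
noncomputable def sp (f : ℤ[X][X]) (t : ℤ) : ℤ[X] := f.map (evalRingHom t)

/-- The polynomial `f(T, Y)` for an element `T` of a commutative ring `S`. -/
noncomputable def spr {S : Type} [CommRing S] (f : ℤ[X][X]) (T : S) : S[X] :=
  f.map (eval₂RingHom (Int.castRingHom S) T)

/-- The integer `t` is exceptional at `p` for the family `f(T, Y)` with the units `u i (T, Y)`:
Leopoldt's conjecture fails at `p` for some number field `K` generated by a root of `f(t, Y)`, of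
degree `deg f`, of unit rank at most `r`, in which the `u i (t, θ)` are units. -/
def Exceptional (p : ℕ) [Fact p.Prime] {r : ℕ} (f : ℤ[X][X]) (u : Fin r → ℤ[X][X]) (t : ℤ) :
    Prop :=
  ∃ (K : Type) (_ : Field K) (_ : NumberField K) (θ : 𝓞 K),
    aeval θ (sp f t) = 0 ∧ IntermediateField.adjoin ℚ {(θ : K)} = ⊤ ∧
    Module.finrank ℚ K = f.natDegree ∧ (∀ i, IsUnit (aeval θ (sp (u i) t))) ∧
    Units.rank K ≤ r ∧ ¬ LeopoldtAt K p

/-- The units `u i (T, Y)` have full rank at infinity: for infinitely many integers `t` the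
regulator of the `u i (t, θ)` (some `r × r` minor of the matrix of the logarithms of the absolute
values of the conjugates) is at least `c (log |t|) ^ r`. -/
def FullRank {r : ℕ} (f : ℤ[X][X]) (u : Fin r → ℤ[X][X]) : Prop :=
  ∃ c : ℝ, 0 < c ∧ {t : ℤ | ∃ z : Fin r → ℂ, (∀ j, aeval (z j) (sp f t) = 0) ∧
    c * Real.log |(t : ℝ)| ^ r ≤
      |(Matrix.of fun i j => Real.log ‖aeval (z j) (sp (u i) t)‖).det|}.Infinite

/-! ### The coefficients of the logarithm -/

theorem lc_exists (p : ℕ) [hp : Fact p.Prime] (k : ℕ) (hk : k ≠ 0) :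
    ∃ c : ℤ_[p], (k : ℤ_[p]) * c = (-1) ^ (k + 1) * (p : ℤ_[p]) ^ (2 * k) ∧
      (p : ℤ_[p]) ^ k ∣ c := by
  obtain ⟨a, m, hm, hkm⟩ := Nat.exists_eq_pow_mul_and_not_dvd hk p hp.out.ne_one
  have ha : a < k := by
    have h1 : a < p ^ a := Nat.lt_pow_self hp.out.one_lt
    have h2 : p ^ a ≤ k := by
      rw [hkm]
      exact Nat.le_mul_of_pos_right _ (Nat.pos_of_ne_zero (by rintro rfl; simp at hm))
    omega
  have hu : IsUnit (m : ℤ_[p]) := by
    rw [PadicInt.isUnit_iff]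
    have h1 : ¬ ((p : ℤ) ∣ (m : ℤ)) := by
      intro h
      exact hm (by exact_mod_cast h)
    have h2 := PadicInt.norm_int_lt_one_iff_dvd (p := p) (m : ℤ)
    have h3 := PadicInt.norm_le_one (p := p) (m : ℤ_[p])
    push_cast at h2
    rcases lt_or_eq_of_le h3 with h | h
    · exact absurd (h2.1 h) h1
    · exact h
  obtain ⟨v, hv⟩ := hu
  refine ⟨(-1) ^ (k + 1) * ((v⁻¹ : (ℤ_[p])ˣ) : ℤ_[p]) * (p : ℤ_[p]) ^ (2 * k - a), ?_, ?_⟩
  · have h1 : (k : ℤ_[p]) = (p : ℤ_[p]) ^ a * v := by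
      rw [hv]
      have := congrArg (fun n : ℕ => (n : ℤ_[p])) hkm
      simpa using this
    have h2 : (p : ℤ_[p]) ^ (2 * k) = (p : ℤ_[p]) ^ a * (p : ℤ_[p]) ^ (2 * k - a) := by
      rw [← pow_add]
      congr 1
      omega
    rw [h1, h2]
    have h3 : (v : ℤ_[p]) * ((v⁻¹ : (ℤ_[p])ˣ) : ℤ_[p]) = 1 := by simp
    calc (p : ℤ_[p]) ^ a * v * ((-1) ^ (k + 1) * ((v⁻¹ : (ℤ_[p])ˣ) : ℤ_[p]) *
        (p : ℤ_[p]) ^ (2 * k - a)) = (-1) ^ (k + 1) * ((p : ℤ_[p]) ^ a *
        (p : ℤ_[p]) ^ (2 * k - a)) * ((v : ℤ_[p]) * ((v⁻¹ : (ℤ_[p])ˣ) : ℤ_[p])) := by ring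
      _ = _ := by rw [h3, mul_one]
  · exact Dvd.dvd.mul_left (pow_dvd_pow _ (by omega)) _

open Classical in
/-- The coefficient `(-1) ^ (k + 1) p ^ (2 k) / k` of `w ^ k` in `log (1 + p ^ 2 w)`. -/
noncomputable def lc (p : ℕ) [Fact p.Prime] (k : ℕ) : ℤ_[p] :=
  if h : k = 0 then 0 else (lc_exists p k h).choose

theorem lc_zero (p : ℕ) [Fact p.Prime] : lc p 0 = 0 := by
  simp [lc]

theorem lc_spec (p : ℕ) [Fact p.Prime] (k : ℕ) (hk : k ≠ 0) :
    (k : ℤ_[p]) * lc p k = (-1) ^ (k + 1) * (p : ℤ_[p]) ^ (2 * k) := by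
  rw [lc, dif_neg hk]
  exact (lc_exists p k hk).choose_spec.1

theorem lc_dvd (p : ℕ) [Fact p.Prime] (k : ℕ) : (p : ℤ_[p]) ^ k ∣ lc p k := by
  rcases eq_or_ne k 0 with hk | hk
  · subst hk
    simp
  · rw [lc, dif_neg hk]
    exact (lc_exists p k hk).choose_spec.2

/-- `l` represents `log (1 + p ^ 2 w)` in `S[Y] / (F)`: for every `N` it is congruent modulo
`p ^ N` and `F` to the partial sum `∑ k < N, lc k * w ^ k` (all terms with `k ≥ N` are divisible
by `p ^ N`). -/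
def LogMod (p : ℕ) [Fact p.Prime] {S : Type} [CommRing S] [Algebra ℤ_[p] S] (F w l : S[X]) :
    Prop :=
  ∀ N : ℕ, ∃ a b : S[X],
    l = ∑ k ∈ Finset.range N, C (algebraMap ℤ_[p] S (lc p k)) * w ^ k +
      C ((p : S) ^ N) * a + F * b

/-- Every series `∑ p ^ k b k` converges in the `p`-adic topology of `S`. -/
def PC (p : ℕ) (S : Type) [CommRing S] : Prop :=
  ∀ b : ℕ → S, ∃ l : S, ∀ N : ℕ, (p : S) ^ N ∣ l - ∑ k ∈ Finset.range N, (p : S) ^ k * b k

/-- The embedding of the `p`-adic integers into the complex `p`-adic numbers. -/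
noncomputable def emb (p : ℕ) [Fact p.Prime] : ℤ_[p] →+* ℂ_[p] :=
  (algebraMap ℚ_[p] ℂ_[p]).comp PadicInt.Coe.ringHom

/-- The field generated by `T` over the constants of the derivation `D`. -/
def Fld {Ω : Type} [Field Ω] (D : Derivation ℤ Ω Ω) (T : Ω) : Subfield Ω :=
  Subfield.closure ({x | D x = 0} ∪ {T})

end Pool.Agent.LUB
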