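import Pool.Agent.LUB.Defs

/-!
# Squad LUB: statements with proofs

MAIN THEOREM (UNIFORM FINITENESS). For every prime `p` and all `n`, `r`, `D` there is `K` such that
for every monic `f(T, Y)` of degree `n` in `Y` and all `u 1, ..., u r` in `ℤ[T, Y]`, all degrees at
most `D`, for which the values `u i (t, θ)` have full rank at infinity (`FullRank`), at most `K`
integers `t` are exceptional at `p`: i.e. Leopoldt's conjecture holds at `p` for the number field
generated by a root `θ` of `f(t, Y)` whenever it has degree `n`, unit rank at most `r` and the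
`u i (t, θ)` are units, with at most `K` exceptions.

IDEA. All pairs (family, residue class of `t` modulo `p ^ 3`) fall into finitely many classes
modulo `p ^ 3`. In one class write `T = T₁ + p ^ 2 X`, (coefficients of the family)
`= a + p ^ 2 X_s`. With `R = ℤ_p[[X_s]]` (noetherian), `S = R[[X]]` the universal polynomials
`F`, `U i` over `S` satisfy `U i ^ M = 1 + p ^ 2 w i` modulo `F`, so `log (U i ^ M)` is represented
by a polynomial `l i` over `S` of degree `< n`. The `r × r` minors `g` of the matrix of the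
coefficients of the `l i` are power series in `X` over the noetherian ring `R`: the ideal generated
by their coefficients is generated by finitely many of them, and this gives a bound `K` for the
number of zeros which is uniform in all specializations `R → ℤ_p` for which the specialized series
is not zero (NOE + STR). At an exceptional `t` all minors vanish (CRI). For a given family with
full rank at infinity some minor is not identically zero (NVN): by the theorem of Kolchin and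
Ostrowski the vanishing of all minors gives a relation between the `λ (u i (T, θ_j))` for every
homomorphism `λ` to the reals which kills the constants, and `λ = lim log |u i (t, θ_j)| / log |t|`
is such a homomorphism.
-/

set_option autoImplicit false

open Polynomial NumberField
open Pool.Agent.Helper85_Leo (LeopoldtAt HasLog)

namespace Pool.Agent.LUB

/-! ## Block A: power series -/

/-- EVH (80 lines). Evaluation of a power series over `ℤ_p` at elements of `p ℤ_p`.
PROOF. `MvPowerSeries.aeval` of Mathlib (file RingTheory/MvPowerSeries/Evaluation) with the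
topology of `ℤ_[p]`: one needs the instance `IsLinearTopology ℤ_[p] ℤ_[p]` (the ideals
`span {p ^ n}` form a basis of neighbourhoods of `0`, e.g. by `IsLinearTopology.mk_of_hasBasis`, or
the closed balls `{x | ‖x‖ ≤ ε}` are ideals) and `HasEval x`: `x i` is topologically nilpotent
because `‖x i‖ < 1`, and tends to `0` along `cofinite` since `σ` is finite.
Alternatively: define the value by `∑'` and check multiplicativity by hand. -/
def EvhStmt : Prop := ∀ (p : ℕ) [Fact p.Prime] (σ : Type) [Finite σ] (x : σ → ℤ_[p]),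
  (∀ i, ‖x i‖ < 1) →
    ∃ φ : MvPowerSeries σ ℤ_[p] →ₐ[ℤ_[p]] ℤ_[p], ∀ i, φ (MvPowerSeries.X i) = x i

/-- STR (100 lines). A Strassman bound in terms of domination of the coefficients.
PROOF. For an algebra homomorphism `φ` with `φ X = z` one has `φ g = ∑ g_k z ^ k`, since
`g = trunc_N g + X ^ N h` gives `φ g ≡ ∑_{k < N} g_k z ^ k` modulo `z ^ N` (and `p ∣ z`). Put
`z = p y`, `a_k = g_k p ^ k` (in `ℚ_[p]`), so `∑ a_k y ^ k = 0` for the points `y = z / p` of the
closed unit disc. Suppose `Z.card ≥ K + 1`. Let `m = max_{l ≤ K} ‖a_l‖`. For `k ≥ K + 1` choose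
`l ≤ K` with `‖g_k‖ ≤ ‖g_l‖`; then `‖a_k‖ = ‖g_k‖ p ^ (-k) ≤ ‖g_l‖ p ^ (-l) p ^ (-1) ≤ m / p`.
`Pool.Agent.Helper85_Leo.strassman` (file `Helper85_Leo/Strassman.lean`) with `C₀ = m / p` gives
`‖a_i‖ ≤ m / p` for all `i`, hence `m ≤ m / p`, `m = 0`, all `g_l`, `l ≤ K`, vanish and so
`g = 0`. -/
def StrStmt : Prop := ∀ (p : ℕ) [Fact p.Prime] (g : PowerSeries ℤ_[p]), g ≠ 0 → ∀ K : ℕ,
  (∀ k, ∃ l ≤ K, ‖PowerSeries.coeff k g‖ ≤ ‖PowerSeries.coeff l g‖) →
  ∀ Z : Finset ℤ_[p], (∀ z ∈ Z, ‖z‖ < 1 ∧ ∃ φ : PowerSeries ℤ_[p] →ₐ[ℤ_[p]] ℤ_[p],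
    φ PowerSeries.X = z ∧ φ g = 0) → Z.card ≤ K

/-- NOE (60 lines). Uniform domination of the coefficients, from the noetherian property.
PROOF. The ideal generated by all coefficients `g_k` of `g` is finitely generated, hence generated
by `g_0, ..., g_K` for some `K` (e.g. the increasing chain of the ideals
`span {g_0, ..., g_k}` becomes stationary: `monotone_stabilizes_iff_noetherian`). So
`g_k = ∑_{l ≤ K} h_{k l} g_l` and `‖φ g_k‖ ≤ max_l ‖φ h_{k l}‖ ‖φ g_l‖ ≤ max_l ‖φ g_l‖`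
(norms in `ℤ_[p]` are at most one and ultrametric). -/
def NoeStmt : Prop := ∀ (p : ℕ) [Fact p.Prime] (R : Type) [CommRing R] [IsNoetherianRing R]
  (g : PowerSeries R), ∃ K : ℕ, ∀ φ : R →+* ℤ_[p],
    ∀ k, ∃ l ≤ K, ‖φ (PowerSeries.coeff k g)‖ ≤ ‖φ (PowerSeries.coeff l g)‖

/-- PCS (100 lines). Rings of power series over the `p`-adic integers are `p`-adically complete.
PROOF. `ℤ_[p]` satisfies PC: take `l = ∑' k, p ^ k b k` (summable, complete; the tail
`∑' k, p ^ (k + N) b (k + N)` is `p ^ N` times an element). If `S` satisfies PC, then so does every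
ring of functions with coefficientwise addition: choose `l` coefficientwise; divisibility by
`p ^ N` in `MvPowerSeries σ S` (or `PowerSeries S`) is coefficientwise (choose the quotients of the
coefficients; `p ^ N * q` has coefficients `p ^ N * q_m`, as `(p : S) ^ N` is a constant). Apply
this twice. -/
def PcsStmt : Prop := ∀ (p : ℕ) [Fact p.Prime] (σ : Type),
  PC p (PowerSeries (MvPowerSeries σ ℤ_[p]))

/-! ## Block B: logarithms in `S[Y] / (F)` -/

/-- ELL (120 lines). Existence of the logarithm.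
PROOF. Write `lc k = p ^ k * c' k` (`lc_dvd`). For every `k` let
`q k = (C (c' k) * w ^ k) %ₘ F`, a polynomial of degree `< natDegree F`. By PC choose for every
`j` an element `l_j` with `p ^ N ∣ l_j - ∑_{k < N} p ^ k (q k).coeff j` for all `N`, and put
`l = ∑_{j < natDegree F} C l_j X ^ j`. Then `l - ∑_{k < N} p ^ k q k` is divisible by `C (p ^ N)`
(coefficientwise), and `p ^ k q k - C (lc k) w ^ k` is a multiple of `F`. -/
def EllStmt : Prop := ∀ (p : ℕ) [Fact p.Prime] (S : Type) [CommRing S] [Nontrivial S]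
  [Algebra ℤ_[p] S], PC p S → ∀ F w : S[X], F.Monic →
    ∃ l : S[X], l.degree < F.degree ∧ LogMod p F w l

/-- LGD (200 lines). The logarithmic derivative, for `S = ℤ_p[[X]]`.
PROOF. Let `d` be the derivative of `ℤ_p[[X]]`, `g ↦ g^d` the map on polynomials applying `d` to
the coefficients, and `δ g = F' g^d - g' F^d` (`'` = `Polynomial.derivative`), an additive map
`S[Y] → S[Y]` with `δ (g h) = g δ h + h δ g`, `δ F = 0` and `δ (C c * g) = C c * δ g` for constants
`c` from `ℤ_[p]` (in particular for `p ^ N`).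
(1) By `LogMod` with `N`: `δ l = ∑_{k < N} k lc(k) w ^ (k - 1) δ w + p ^ N δ a + F δ b`, and
`k lc(k) = (-1) ^ (k + 1) p ^ (2 k)` for `k ≥ 1` (`lc_spec`), so
`(1 + p ^ 2 w) δ l = p ^ 2 δ w (1 - (- p ^ 2 w) ^ (N - 1)) + (1 + p ^ 2 w) (p ^ N δ a + F δ b)`
for `N ≥ 1`: hence `(1 + p ^ 2 w) δ l - p ^ 2 δ w` is in the ideal `(p ^ (N - 1), F)` for every
`N ≥ 1`. Its remainder on division by the monic `F` therefore has all coefficients divisible by
all `p ^ (N - 1)`, so it is `0` (coefficients in `ℤ_[p]`):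
`(1 + p ^ 2 w) δ l - p ^ 2 δ w = F h`.
(2) For a root `θ` of `F` in `Ω`: `D (g(θ)) = g^d(θ) + g'(θ) D θ` for every `g` in `S[Y]`, and
`0 = D (F(θ)) = F^d(θ) + F'(θ) D θ`; so `(δ g)(θ) = F'(θ) g^d(θ) - g'(θ) F^d(θ) =
F'(θ) (g^d(θ) + g'(θ) D θ) = F'(θ) D (g(θ))`.
(3) Evaluate (1) at `θ` and divide by `F'(θ)`. -/
def LgdStmt : Prop := ∀ (p : ℕ) [Fact p.Prime] (F w l : (PowerSeries ℤ_[p])[X]), F.Monic →
  LogMod p F w l → ∀ (Ω : Type) [Field Ω] [CharZero Ω] [Algebra (PowerSeries ℤ_[p]) Ω]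
    (D : Derivation ℤ Ω Ω),
    (∀ g : PowerSeries ℤ_[p], D (algebraMap _ Ω g) =
      algebraMap _ Ω (PowerSeries.derivative ℤ_[p] g)) →
    ∀ θ : Ω, aeval θ F = 0 → aeval θ (derivative F) ≠ 0 →
      D (aeval θ l) * (1 + (p : Ω) ^ 2 * aeval θ w) = (p : Ω) ^ 2 * D (aeval θ w)

/-- UNI (80 lines). A power of a unit is congruent to one.
PROOF. `A = (ZMod (p ^ 2))[Y] / (F)` (for instance `AdjoinRoot` of the reduction of `F`, or the
quotient of `ℤ[Y]` by the ideal `(p ^ 2, F)`) is a finite ring since `F` is monic. The class of `u`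
is a unit of `A`: `u a + F b = 1 + p c` gives `u a = 1 + p c` in `A`, and `(1 + p c) (1 - p c) = 1`.
With `M` = the number of units of `A` one has `u ^ M = 1` in `A`. -/
def UniStmt : Prop := ∀ (p : ℕ) [Fact p.Prime] (F u : ℤ[X]), F.Monic →
  (∃ a b c : ℤ[X], u * a + F * b = 1 + C (p : ℤ) * c) →
  ∃ M : ℕ, 0 < M ∧ ∃ a b : ℤ[X], u ^ M = 1 + C ((p : ℤ) ^ 2) * a + F * b

/-- UNP (60 lines). As UNI, for finitely many `u` with one exponent.
PROOF. Take `M = ∏ M i`: if `u ^ M = 1 + p ^ 2 a + F b`, then `u ^ (M k) - 1` is in the ideal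
`(p ^ 2, F)` as well (`x ^ k = 1` in the quotient). -/
def UnpStmt : Prop := UniStmt → ∀ (p : ℕ) [Fact p.Prime] (r : ℕ) (F : ℤ[X]) (u : Fin r → ℤ[X]),
  F.Monic → (∀ i, ∃ a b c : ℤ[X], u i * a + F * b = 1 + C (p : ℤ) * c) →
  ∃ M : ℕ, 0 < M ∧ ∀ i, ∃ a b : ℤ[X], u i ^ M = 1 + C ((p : ℤ) ^ 2) * a + F * b

/-- INV (100 lines). Units of `ℤ[θ]` inside the ring of integers.
PROOF. `F` is the minimal polynomial of `θ` over the integers (monic, right degree), so the kernel
of `aeval θ : ℤ[X] → 𝓞 K` is generated by `F` (Gauss: `minpoly.isIntegrallyClosed_dvd`, or: divide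
with remainder by the monic `F`, the remainder has degree `< [K : ℚ]` and kills the generator `θ`
of `K`, so it is `0`). Let `x = u(θ)`, a unit of `𝓞 K`. Its characteristic polynomial on the free
`ℤ`-module `ℤ[X]/(F)` (or the minimal polynomial over `ℤ`) `x ^ m + c_{m-1} x ^ (m-1) + ... + c_0
= 0` has `c_0 = ± 1`: the minimal polynomial of a unit over `ℤ` has constant coefficient `± 1`
since `x⁻¹` is integral (the constant coefficient divides `1`: the norm of a unit is a unit,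
`c_0 ^ k = ± N(x)`). Hence `x⁻¹ = ∓ (x ^ (m-1) + ... + c_1)` is `a(θ)` for a polynomial
`a` in `ℤ[X]`, and `u a - 1` is in the kernel, a multiple of `F`. -/
def InvStmt : Prop := ∀ (K : Type) [Field K] [NumberField K] (θ : 𝓞 K) (F u : ℤ[X]), F.Monic →
  aeval θ F = 0 → IntermediateField.adjoin ℚ {(θ : K)} = ⊤ →
  Module.finrank ℚ K = F.natDegree → IsUnit (aeval θ u) →
  ∃ a b : ℤ[X], u * a + F * b = 1

/-- HLG (120 lines). The polynomial `l` gives the `p`-adic logarithm.
PROOF. Put `y = - p ^ 2 w(ξ)`; `‖w(ξ)‖ ≤ 1` since the coefficients and `ξ` have norm at most one,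
so `‖y‖ < 1` and `Pool.Agent.Helper85_Leo.hasLog_one_sub` gives
`HasLog p (1 - y) (- ∑' n, y ^ (n + 1) / (n + 1))`. By `LogMod` with `N`,
`l(ξ) = ∑_{k < N} lc(k) w(ξ) ^ k + p ^ N a(ξ)`, `‖a(ξ)‖ ≤ 1`, and for `k ≥ 1`
`lc(k) w(ξ) ^ k = (-1) ^ (k + 1) p ^ (2 k) w(ξ) ^ k / k = - y ^ k / k` (`lc_spec`). So the partial
sums of `- ∑ y ^ (n + 1) / (n + 1)` tend to `l(ξ)`. -/
def HlgStmt : Prop := ∀ (p : ℕ) [Fact p.Prime] (F w l : ℤ_[p][X]) (ξ : ℂ_[p]),
  LogMod p F w l → eval₂ (emb p) ξ F = 0 → ‖ξ‖ ≤ 1 →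
    HasLog p (1 + (p : ℂ_[p]) ^ 2 * eval₂ (emb p) ξ w) (eval₂ (emb p) ξ l)

/-- CRI (200 lines). The criterion.
PROOF. `K` has `n = [K : ℚ]` embeddings `σ` into `ℂ_[p]`, the numbers `ξ_σ = σ(θ)` are different
(`θ` generates `K`), roots of `F`, of norm at most one
(`Pool.Agent.Helper85_Leo.norm_embedding_le_one`). Let `η i` be the unit `u i (θ)`:
`unitVal σ (η i) ^ M = 1 + p ^ 2 (w i)(ξ_σ)`, so by HLG its logarithm is `(l i)(ξ_σ)`.
Independence: if `∑ c i (l i)(ξ_σ) = 0` for all `σ`, then the polynomial `∑ c i (l i)` over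
`ℂ_[p]`, of degree `< n`, has `n` different roots, so it is `0`: `∑ c i (l i).coeff j = 0` for all
`j`; the minor with columns `J` is not zero, so `c = 0`
(`Matrix.eq_zero_of_vecMul_eq_zero`; `emb p` is injective). Apply
`Pool.Agent.Helper65_Leo.leopoldtAt_of_independent_logs` (import `Pool.Agent.Helper65_Leo.Local`)
with `κ` = the embeddings. -/
def CriStmt : Prop := HlgStmt → ∀ (p : ℕ) [Fact p.Prime] (r : ℕ) (K : Type) [Field K]
  [NumberField K] (θ : 𝓞 K) (F : ℤ[X]), F.Monic → aeval θ F = 0 →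
  IntermediateField.adjoin ℚ {(θ : K)} = ⊤ → Module.finrank ℚ K = F.natDegree →
  ∀ u : Fin r → ℤ[X], (∀ i, IsUnit (aeval θ (u i))) → ∀ M : ℕ, 0 < M →
  ∀ w b l : Fin r → ℤ_[p][X],
    (∀ i, (u i).map (Int.castRingHom ℤ_[p]) ^ M =
      1 + C ((p : ℤ_[p]) ^ 2) * w i + F.map (Int.castRingHom ℤ_[p]) * b i) →
    (∀ i, LogMod p (F.map (Int.castRingHom ℤ_[p])) (w i) (l i)) →
    (∀ i, (l i).degree < F.natDegree) → Units.rank K ≤ r →
    (∃ J : Fin r → Fin F.natDegree, (Matrix.of fun i k => (l i).coeff (J k)).det ≠ 0) →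
    LeopoldtAt K p

/-! ## Block C: the derivation, specialization at integers, the real functional -/

/-- OMG (150 lines). A differential field in which `F` splits.
PROOF. Let `L = LaurentSeries ℚ_[p]` with the derivation `D₀ = X⁻¹ · euler`
(`Pool.Agent.Helper65_Leo.euler` in `Helper65_Leo/Laurent.lean`, the derivation
`∑ a_n X ^ n ↦ ∑ n a_n X ^ n`; use `attribute [-instance] HahnSeries.powerSeriesAlgebra` as
there, or work with `HahnSeries.ofPowerSeries`), and the injective homomorphism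
`ℤ_p[[X]] → ℚ_p[[X]] → L`, compatible with the derivations. Let `Ω` be the splitting field of the
image of `F` over `L`, a finite extension; `Differential.differentialFiniteDimensional`
(Mathlib/FieldTheory/Differential/Basic) extends the derivation to `Ω`
(`differentialAlgebraFiniteDimensional`). Any other field with these properties will do. -/
def OmgStmt : Prop := ∀ (p : ℕ) [Fact p.Prime] (F : (PowerSeries ℤ_[p])[X]), F.Monic →
  ∃ (Ω : Type) (_ : Field Ω) (_ : CharZero Ω) (_ : Algebra (PowerSeries ℤ_[p]) Ω)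
    (D : Derivation ℤ Ω Ω),
    Function.Injective (algebraMap (PowerSeries ℤ_[p]) Ω) ∧
    (∀ g : PowerSeries ℤ_[p], D (algebraMap _ Ω g) =
      algebraMap _ Ω (PowerSeries.derivative ℤ_[p] g)) ∧
    ∃ θ : Fin F.natDegree → Ω, F.map (algebraMap _ Ω) = ∏ j, (X - C (θ j))

/-- SPH (120 lines). Specialization of an integral extension of `ℤ[T]` at `T = t`.
PROOF. `ℤ[T] = Algebra.adjoin ℤ {T}` is a polynomial ring (`T` is transcendental), so there is
`s₀ : ℤ[T] → ℤ → ℂ` with `s₀ T = t`; let `P` be its kernel (prime). The ring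
`B = Algebra.adjoin ℤ ({T} ∪ range θ)` is integral over `ℤ[T]`, so there is a prime `Q` of `B` over
`P` (`Ideal.exists_ideal_over_prime_of_isIntegral`, or the version for injective integral maps).
The domain `B/Q` is integral over `ℤ[T]/P ⊂ ℂ`, so its fraction field is algebraic over the one of
`ℤ[T]/P` and embeds into `ℂ` over it (`IsAlgClosed.lift`). -/
def SphStmt : Prop := ∀ (Ω : Type) [Field Ω] [CharZero Ω] (T : Ω), Transcendental ℚ T →
  ∀ (n : ℕ) (θ : Fin n → Ω), (∀ j, IsIntegral (Algebra.adjoin ℤ {T}) (θ j)) → ∀ t : ℤ,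
    ∃ s : Algebra.adjoin ℤ ({T} ∪ Set.range θ) →+* ℂ,
      s ⟨T, Algebra.subset_adjoin (by simp)⟩ = t

/-- SPF (60 lines). Specialization of the factorization.
PROOF. `f(T, Y) = ∏ (Y - θ j)` holds with coefficients in the subring
`B = Algebra.adjoin ℤ ({T} ∪ range θ)` (the inclusion `B → Ω` is injective; `spr f T` is the image
of `spr f ⟨T, _⟩`); apply `s`. -/
def SpfStmt : Prop := ∀ (Ω : Type) [Field Ω] (T : Ω) (f : ℤ[X][X]) (n : ℕ) (θ : Fin n → Ω),
  spr f T = ∏ j, (X - C (θ j)) → ∀ (s : Algebra.adjoin ℤ ({T} ∪ Set.range θ) →+* ℂ) (t : ℤ),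
    s ⟨T, Algebra.subset_adjoin (by simp)⟩ = t →
    (sp f t).map (Int.castRingHom ℂ) =
      ∏ j, (X - C (s ⟨θ j, Algebra.subset_adjoin (by simp)⟩)) ∧
    ∀ (u : ℤ[X][X]) (j : Fin n) (x : Algebra.adjoin ℤ ({T} ∪ Set.range θ)),
      (x : Ω) = (spr u T).eval (θ j) →
      s x = aeval (s ⟨θ j, Algebra.subset_adjoin (by simp)⟩) (sp u t)

/-- BND (150 lines). Polynomial bounds for specialized values.
PROOF. `x ≠ 0` is integral over `ℤ[T]`: choose a monic relation
`x ^ m + c_1(T) x ^ (m - 1) + ... + c_m(T) = 0` with `c_m(T) ≠ 0` (divide by a power of `x`), the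
`c_i` in `ℤ[X]` (`x` is integral over `ℤ[T]` since `T`, `θ j` are). For every `s` with `s T = t` the
number `z = s x` satisfies `z ^ m + c_1(t) z ^ (m-1) + ... + c_m(t) = 0`. Upper bound:
`|z| ≤ 1 + ∑ |c_i(t)| ≤ |t| ^ A`. Lower bound: `c_m(t) ≠ 0` for large `|t|` and it is an integer, so
`1 ≤ |c_m(t)| = |z| |z ^ (m-1) + ... + c_{m-1}(t)| ≤ |z| |t| ^ A'`. -/
def BndStmt : Prop := ∀ (Ω : Type) [Field Ω] [CharZero Ω] (T : Ω), Transcendental ℚ T →
  ∀ (n : ℕ) (θ : Fin n → Ω), (∀ j, IsIntegral (Algebra.adjoin ℤ {T}) (θ j)) →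
  ∀ x : Algebra.adjoin ℤ ({T} ∪ Set.range θ), x ≠ 0 → ∃ (A : ℝ) (t₀ : ℕ), ∀ t : ℤ,
    (t₀ : ℝ) ≤ |(t : ℝ)| → ∀ s : Algebra.adjoin ℤ ({T} ∪ Set.range θ) →+* ℂ,
      s ⟨T, Algebra.subset_adjoin (by simp)⟩ = t →
      s x ≠ 0 ∧ |Real.log ‖s x‖| ≤ A * Real.log |(t : ℝ)|

/-- KIL (120 lines). Algebraic products have bounded specializations.
PROOF. Write `∏ y_i ^ (m i) = a / b` with `a`, `b` the products over the positive and negative
exponents, both in `B = Algebra.adjoin ℤ ({T} ∪ range θ)`, non-zero. If `γ = a / b` is algebraic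
over `ℚ`: `∑_{k ≤ d} c_k γ ^ k = 0` with integers `c_k`, `c_0 ≠ 0`, `c_d ≠ 0` (`γ ≠ 0`), so
`∑ c_k a ^ k b ^ (d - k) = 0` in `B`, and for every `s` the number `ρ = s a / s b` satisfies
`∑ c_k ρ ^ k = 0` (when all `s y_i ≠ 0`). Hence `|ρ|` is bounded above and below by positive
constants (depending on the `c_k` only) and `∑ m_i log |s y_i| = log |ρ|` is bounded. -/
def KilStmt : Prop := ∀ (Ω : Type) [Field Ω] [CharZero Ω] (B : Subring Ω) (κ : Type) [Fintype κ]
  (y : κ → B) (m : κ → ℤ), (∀ i, (y i : Ω) ≠ 0) → IsAlgebraic ℚ (∏ i, (y i : Ω) ^ m i) →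
  ∃ A : ℝ, ∀ s : B →+* ℂ, (∀ i, s (y i) ≠ 0) → |∑ i, (m i : ℝ) * Real.log ‖s (y i)‖| ≤ A

/-- RFL (STRONG, 250 lines). The real functional.
PROOF. Let `B = Algebra.adjoin ℤ ({T} ∪ range θ)`; the `θ j` are integral over `ℤ[T]` (roots of the
monic `spr f T`), and `y i j = u i (T, θ j)` lies in `B`, non-zero. Let `E` be the infinite set of
`FullRank`, `c > 0` its constant. For `t` in `E` choose `s_t : B → ℂ` with `s_t T = t` (SPH). By SPF
the roots of `sp f t` are the `s_t (θ j)`; so the `z` of `FullRank` is `z j = s_t (θ (π_t j))` for a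
map `π_t : Fin r → Fin n`, and `aeval (z j) (sp (u i) t) = s_t (y i (π_t j))`. Take an ultrafilter
`𝒰` on `ℤ` containing `E` and all the sets `{|t| ≥ t₀}` (e.g. `Filter.hyperfilter` of the infinite
subtype `E`). `π_t = π` is constant on a set of `𝒰` (finitely many values). By BND the functions
`log ‖s_t (y i j)‖ / log |t|` are bounded for large `t`, so they have a limit `λ i j` along `𝒰`.
(a) For `t` in a set of `𝒰`: `c ≤ |det (log ‖s_t (y i (π j))‖ / log |t|)|`, so in the limit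
`|det (λ i (π j))| ≥ c > 0` (continuity of the determinant).
(b) If `∏ (y i j) ^ (m i j)` is algebraic over `ℚ`, then `∑ m i j log ‖s_t (y i j)‖` is bounded
(KIL), divide by `log |t| → ∞`: `∑ m i j λ i j = 0`. -/
def RflStmt : Prop := SphStmt → SpfStmt → BndStmt → KilStmt → ∀ (Ω : Type) [Field Ω] [CharZero Ω]
  (T : Ω), Transcendental ℚ T → ∀ (r : ℕ) (f : ℤ[X][X]) (u : Fin r → ℤ[X][X]) (n : ℕ)
  (θ : Fin n → Ω), spr f T = ∏ j, (X - C (θ j)) → (∀ i j, (spr (u i) T).eval (θ j) ≠ 0) →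
  FullRank f u → ∃ (π : Fin r → Fin n) (lam : Fin r → Fin n → ℝ),
    (Matrix.of fun i j => lam i (π j)).det ≠ 0 ∧
    ∀ m : Fin r → Fin n → ℤ, IsAlgebraic ℚ (∏ i, ∏ j, (spr (u i) T).eval (θ j) ^ m i j) →
      ∑ i, ∑ j, (m i j : ℝ) * lam i j = 0

/-! ## Block D: the theorem of Kolchin and Ostrowski for logarithms -/

/-- CST (80 lines). Constants which are algebraic over `ℚ(T)` are algebraic over `ℚ`.
PROOF. Suppose `x` is transcendental over `ℚ`. It is algebraic over `ℚ(T)`, so `T` is algebraic over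
`ℚ(x)` (exchange: a polynomial relation `P(T, x) = 0` over `ℚ`, `P ≠ 0`, with positive degree in `T`
after removing common factors; e.g. via transcendence degree, `IsTranscendenceBasis` lemmas, or
directly). All elements of `ℚ(x)` are constants, and an element `T` algebraic over a field of
constants `k` is a constant: `0 = D (P(T)) = P'(T) D T` for the minimal polynomial `P`, `P'(T) ≠ 0`.
So `D T = 0`, a contradiction. -/
def CstStmt : Prop := ∀ (Ω : Type) [Field Ω] [CharZero Ω] (D : Derivation ℤ Ω Ω) (T x : Ω),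
  D T ≠ 0 → IsAlgebraic (IntermediateField.adjoin ℚ {T}) x → D x = 0 → IsAlgebraic ℚ x

/-- OSA (150 lines). The residue argument in the field of rational functions.
PROOF. Embed `RatFunc k` into `LaurentSeries k` (`X ↦ X`); for `h ≠ 0` the coefficient of `X ^ (-1)`
of `h' / h` is the order of `h`, an integer, and for a derivative `g'` it is `0` (see
`Helper65_Leo/Laurent.lean`: `coeff_zero_euler_div`, `ratEmb`, `exists_der_ratEmb`: multiply by `X`
and use the Euler derivation `X d/dX`, coefficient of `X ^ 0`). Taking this coefficient of the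
relation gives `∑ β i ord (h i) = 0`; the `β i` are linearly independent over `ℚ`, so all
`ord (h i) = 0`. But `h i₀ = X ^ d`, `d ≠ 0`, has order `d`. -/
def OsaStmt : Prop := ∀ (k : Type) [Field k] [CharZero k] (d₀ : Derivation k (RatFunc k)
  (RatFunc k)), d₀ RatFunc.X = 1 → ∀ (ι : Type) [Fintype ι] (β : ι → k),
  LinearIndependent ℚ β → ∀ (h : ι → RatFunc k) (g : RatFunc k) (i₀ : ι) (d : ℕ), d ≠ 0 →
  (∀ i, h i ≠ 0) → h i₀ = RatFunc.X ^ d →
  ∑ i, algebraMap k (RatFunc k) (β i) * (d₀ (h i) / h i) = d₀ g → False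

/-- OSB (200 lines). Norms and traces commute with derivations.
PROOF. Let `E / K₀` be a finite extension in characteristic `0` and `D` a derivation of `E` with
`D (K₀) ⊂ K₀`. Then `D (Tr x) = Tr (D x)` and, for `x ≠ 0`, `D (N x) / N x = Tr (D x / x)`. So from
`∑ β i (D (w i) / w i) = D a` with `β i` in `K₀` (constants) the trace gives
`∑ β i (D (N (w i)) / N (w i)) = D (Tr a)`.
Proof of the two formulas: as in Mathlib's proof of `isLiouville_of_finiteDimensional`: pass to a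
finite Galois extension `E'` of `K₀` containing `E` (with
`Differential.differentialFiniteDimensional`; it restricts to `D` on `E` by uniqueness,
`uniqueDifferentialAlgebraFiniteDimensional`), automorphisms commute with the derivation
(`algEquiv_deriv'`), and `Tr`, `N` are sum and product over the embeddings `E → E'`. Or by matrices:
with a basis `e` of `E`, `D e_j = ∑ N_{kj} e_k`, one has `M_{D x} = D(M_x) + [N, M_x]` for the
matrices of multiplication, so `Tr (D x) = D (Tr x)`, and for the norm use Jacobi's formula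
`D (det M) = det M · Tr (M⁻¹ D(M))`. -/
def OsbStmt : Prop := ∀ (K₀ E : Type) [Field K₀] [Field E] [CharZero K₀] [Algebra K₀ E]
  [FiniteDimensional K₀ E] (D₀ : Derivation ℤ K₀ K₀) (D : Derivation ℤ E E),
  (∀ x, D (algebraMap K₀ E x) = algebraMap K₀ E (D₀ x)) →
  (∀ x : E, D₀ (Algebra.trace K₀ E x) = Algebra.trace K₀ E (D x)) ∧
  (∀ x : E, x ≠ 0 → D₀ (Algebra.norm K₀ x) / Algebra.norm K₀ x = Algebra.trace K₀ E (D x / x))

/-- OST (STRONG, 250 lines). Ostrowski's theorem for logarithms of algebraic functions.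
PROOF. Let `C = {x | D x = 0}`, a subfield of `Ω`, algebraically closed in `Ω`, and let `A` be the
set of the elements of `Ω` algebraic over `C(T)` (= `Fld D T`), a subfield stable under `D`
(derivatives of algebraic elements: `D x = - P^D(x) / P'(x)`). Suppose `D (w i₀) ≠ 0` and put
`v = w i₀`. `v` is transcendental over `C`, `v` is algebraic over `C(T)`, so `T` is algebraic over
`K₀ = C(v)` (exchange) and so is every element of `A`. `D' = (D v)⁻¹ D` is a derivation of `A` which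
vanishes on `C` and has `D' v = 1`; it maps `K₀` to itself. Let `E = K₀(w i, a)`, a finite extension
of `K₀` stable under `D'` (the derivative of an element algebraic over `K₀` lies in the field
generated by it over `K₀`). Dividing the relation by `D v`: `∑ β i D'(w i) / w i = D' a`. Take the
trace to `K₀` (OSB): `∑ β i D'(h i) / h i = D' g` with `h i = N (w i)`, `g = Tr a` in `K₀`, and
`h i₀ = v ^ d`, `d = [E : K₀]`. `K₀` is isomorphic to `RatFunc C` with `v ↦ X`; OSA gives a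
contradiction. -/
def OstStmt : Prop := OsaStmt → OsbStmt → ∀ (Ω : Type) [Field Ω] [CharZero Ω]
  (D : Derivation ℤ Ω Ω) (T : Ω), D T ≠ 0 → ∀ (ι : Type) [Fintype ι] (β w : ι → Ω) (a : Ω),
  (∀ i, D (β i) = 0) → LinearIndependent ℚ β → (∀ i, w i ≠ 0) →
  (∀ i, IsAlgebraic (Fld D T) (w i)) → IsAlgebraic (Fld D T) a →
  ∑ i, β i * (D (w i) / w i) = D a → ∀ i, D (w i) = 0

/-- OSC (150 lines). Logarithms of multiplicatively independent functions.
PROOF. Suppose `c ≠ 0`. Let `β` be a basis of the `ℚ`-span of the `c l`; after multiplying all `c l`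
and `a` by a common denominator, `c l = ∑_k q_{l k} β k` with integers `q_{l k}`. With
`w k = ∏_l (v l) ^ (q_{l k})` the relation reads `∑_k β k D (w k) / w k = D a` (logarithmic
derivatives are additive). By OST all `D (w k) = 0`, so by independence all `q_{l k} = 0`, `c = 0`.
(The `w k` are algebraic over `Fld D T` as products of powers.) -/
def OscStmt : Prop := (∀ (Ω : Type) [Field Ω] [CharZero Ω]
  (D : Derivation ℤ Ω Ω) (T : Ω), D T ≠ 0 → ∀ (ι : Type) [Fintype ι] (β w : ι → Ω) (a : Ω),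
  (∀ i, D (β i) = 0) → LinearIndependent ℚ β → (∀ i, w i ≠ 0) →
  (∀ i, IsAlgebraic (Fld D T) (w i)) → IsAlgebraic (Fld D T) a →
  ∑ i, β i * (D (w i) / w i) = D a → ∀ i, D (w i) = 0) →
  ∀ (Ω : Type) [Field Ω] [CharZero Ω] (D : Derivation ℤ Ω Ω) (T : Ω), D T ≠ 0 →
  ∀ (κ : Type) [Fintype κ] (v c : κ → Ω) (a : Ω), (∀ l, D (c l) = 0) → (∀ l, v l ≠ 0) →
  (∀ l, IsAlgebraic (Fld D T) (v l)) → IsAlgebraic (Fld D T) a →
  (∀ m : κ → ℤ, D (∏ l, v l ^ m l) = 0 → m = 0) → ∑ l, c l * (D (v l) / v l) = D a → c = 0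

/-- BAS (120 lines). A basis of the multiplicative group modulo constants.
PROOF. Let `Λ = {m : κ → ℤ | D (∏ u ^ m) = 0}`, a subgroup of `ℤ ^ κ` with torsion free quotient: if
`D (x ^ k) = 0`, `k ≠ 0`, `x ≠ 0`, then `k x ^ (k - 1) D x = 0`, so `D x = 0`. The quotient is
finitely generated and torsion free, hence free with a basis `b 1, ..., b q`; lift the `b l` to
vectors `B l : κ → ℤ` and put `v l = ∏_k (u k) ^ (B l k)`. Then every standard vector `e_k` is
`∑_l N k l B l` modulo `Λ` (first claim), and `∏ v ^ m` constant means `∑ m l B l ∈ Λ`, i.e. `m = 0`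
(second claim). -/
def BasStmt : Prop := ∀ (Ω : Type) [Field Ω] [CharZero Ω] (D : Derivation ℤ Ω Ω) (κ : Type)
  [Fintype κ] (u : κ → Ω), (∀ k, u k ≠ 0) → ∃ (q : ℕ) (B : Fin q → κ → ℤ) (N : κ → Fin q → ℤ),
    (∀ k, D (u k / ∏ l, (∏ k', u k' ^ B l k') ^ N k l) = 0) ∧
    ∀ m : Fin q → ℤ, D (∏ l, (∏ k, u k ^ B l k) ^ m l) = 0 → m = 0

/-- DPL (100 lines). From a determinant over `Ω` to a determinant over the reals.
PROOF. For integers `x l` put `a = C`-multiples: for every `x : Fin q → ℤ` the polynomial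
`det (κ i j + X ∑_l N i j l x l)` in one variable over `Ω` is `0` (it is the image of the
multivariate polynomial `det (κ i j + ∑_l N i j l Y_l)`, which is `0` because it vanishes at the
algebraically independent `z` and has coefficients in the subfield over which they are
independent), so its coefficient of `X ^ |ι|`, `det (∑_l N i j l x l)`, vanishes
(`Polynomial.coeff_det_X_add_C_card`). So the polynomial `det (∑_l N i j l Y_l)` over `ℤ` vanishes
on `ℤ ^ q` and is `0` (`MvPolynomial.funext`); evaluate it at the reals `ρ l`. -/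
def DplStmt : Prop := ∀ (Ω A : Type) [Field Ω] [CharZero Ω] [Field A] [Algebra A Ω] (q : ℕ)
  (z : Fin q → Ω), AlgebraicIndependent A z → ∀ (ι : Type) [Fintype ι] [DecidableEq ι]
  (κ : ι → ι → A) (N : ι → ι → Fin q → ℤ),
  (Matrix.of fun i j => algebraMap A Ω (κ i j) + ∑ l, (N i j l : Ω) * z l).det = 0 →
  ∀ ρ : Fin q → ℝ, (Matrix.of fun i j => ∑ l, (N i j l : ℝ) * ρ l).det = 0

/-- AXK (STRONG, 250 lines). Determinants of logarithms and real functionals.
PROOF. Let `C = {x | D x = 0}` and `A` = the elements of `Ω` algebraic over `Fld D T` (the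
algebraic closure of `C(T)` in `Ω`), stable under `D`. By BAS choose `B`, `N`, `v l = ∏ u ^ (B l)`,
`z l = ∑_k B l k y k`; then `D (z l) = D (v l) / v l`, and `κ k = y k - ∑_l N k l z l` is a constant
(`D` of it is the logarithmic derivative of a constant). By `algebraicIndependent_of_primitives`
(file `Helper65_Leo/Kolchin.lean`, with `k = C`, `F = Ω`) the `z l` are algebraically independent
over `A`: its hypothesis `hind` is OSC (if `∑ c l z l = a` is in `A` with constants `c l`, then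
`∑ c l D (v l) / v l = D a`, so `c = 0`). DPL (matrix `y (e i j) = κ (e i j) + ∑ N (e i j) l z l`)
with `ρ l = ∑_k B l k lam k` gives `det (∑_l N (e i j) l ρ l) = 0`, and
`lam k = ∑_l N k l ρ l` by the hypothesis on `lam` applied to the exponent vector
`e_k - ∑_l N k l B l`, whose product is the constant of BAS. -/
def AxkStmt : Prop := (∀ (Ω : Type) [Field Ω] [CharZero Ω] (D : Derivation ℤ Ω Ω) (T : Ω),
  D T ≠ 0 → ∀ (κ : Type) [Fintype κ] (v c : κ → Ω) (a : Ω), (∀ l, D (c l) = 0) → (∀ l, v l ≠ 0) →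
  (∀ l, IsAlgebraic (Fld D T) (v l)) → IsAlgebraic (Fld D T) a →
  (∀ m : κ → ℤ, D (∏ l, v l ^ m l) = 0 → m = 0) → ∑ l, c l * (D (v l) / v l) = D a → c = 0) →
  BasStmt → DplStmt → ∀ (Ω : Type) [Field Ω] [CharZero Ω] (D : Derivation ℤ Ω Ω) (T : Ω),
  D T ≠ 0 → ∀ (κ ι : Type) [Fintype κ] [Fintype ι] [DecidableEq ι] (u y : κ → Ω) (lam : κ → ℝ)
  (e : ι → ι → κ), (∀ k, u k ≠ 0) → (∀ k, IsAlgebraic (Fld D T) (u k)) →
  (∀ k, D (y k) = D (u k) / u k) →
  (∀ m : κ → ℤ, D (∏ k, u k ^ m k) = 0 → ∑ k, (m k : ℝ) * lam k = 0) →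
  (Matrix.of fun i j => y (e i j)).det = 0 → (Matrix.of fun i j => lam (e i j)).det = 0

/-- DEP (80 lines). If all maximal minors vanish, the rows are dependent.
PROOF. Over the fraction field `k`: if the rows of the `r × n` matrix are linearly independent, the
rank is `r`, so some `r` columns are linearly independent (`Matrix.rank` of the transpose, choose a
basis among the columns: `exists_linearIndependent'`) and their minor is not zero. So the rows are
dependent over `k`; clear denominators. -/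
def DepStmt : Prop := ∀ (S : Type) [CommRing S] [IsDomain S] (r n : ℕ) (L : Fin r → Fin n → S),
  (∀ J : Fin r → Fin n, (Matrix.of fun i k => L i (J k)).det = 0) →
  ∃ α : Fin r → S, α ≠ 0 ∧ ∀ j, ∑ i, α i * L i j = 0

/-! ## Block E: non-vanishing and assembly -/

/-- The conclusion of AXK. -/
def AxkConcl : Prop := ∀ (Ω : Type) [Field Ω] [CharZero Ω] (D : Derivation ℤ Ω Ω) (T : Ω),
  D T ≠ 0 → ∀ (κ ι : Type) [Fintype κ] [Fintype ι] [DecidableEq ι] (u y : κ → Ω) (lam : κ → ℝ)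
  (e : ι → ι → κ), (∀ k, u k ≠ 0) → (∀ k, IsAlgebraic (Fld D T) (u k)) →
  (∀ k, D (y k) = D (u k) / u k) →
  (∀ m : κ → ℤ, D (∏ k, u k ^ m k) = 0 → ∑ k, (m k : ℝ) * lam k = 0) →
  (Matrix.of fun i j => y (e i j)).det = 0 → (Matrix.of fun i j => lam (e i j)).det = 0

/-- The conclusion of RFL. -/
def RflConcl : Prop := ∀ (Ω : Type) [Field Ω] [CharZero Ω]
  (T : Ω), Transcendental ℚ T → ∀ (r : ℕ) (f : ℤ[X][X]) (u : Fin r → ℤ[X][X]) (n : ℕ)
  (θ : Fin n → Ω), spr f T = ∏ j, (X - C (θ j)) → (∀ i j, (spr (u i) T).eval (θ j) ≠ 0) →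
  FullRank f u → ∃ (π : Fin r → Fin n) (lam : Fin r → Fin n → ℝ),
    (Matrix.of fun i j => lam i (π j)).det ≠ 0 ∧
    ∀ m : Fin r → Fin n → ℤ, IsAlgebraic ℚ (∏ i, ∏ j, (spr (u i) T).eval (θ j) ^ m i j) →
      ∑ i, ∑ j, (m i j : ℝ) * lam i j = 0

/-- NVN (STRONG, 250 lines). Non-vanishing of a minor of the matrix of logarithms.
PROOF. `T = T₁ + p ^ 2 X` in `ℤ_p[[X]]`. OMG for `F = spr f T` gives `Ω`, `D`, `θ`; identify `T` with
its image: `D T = p ^ 2 ≠ 0`, so `T` is transcendental over `ℚ` (algebraic elements over `ℚ` are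
constants). (1) The `θ j` are different and `u i (T, θ j) ≠ 0`: take `s` of SPH at `t₀`; by SPF the
`s (θ j)` are the roots of `sp f t₀`, which is separable and coprime to the `sp (u i) t₀`; so
`F'(θ j) ≠ 0` (`F = ∏ (Y - θ j)`). (2) RFL gives `π`, `lam`. (3) Suppose that all minors
`det ((l i).coeff (J k))` vanish. By DEP there is `α ≠ 0` with `∑ α i (l i).coeff j = 0` for all
`j < n`, i.e. `∑ α i l i = 0` (degrees `< n`), so `∑ α i (l i)(θ j) = 0` for all `j` and
`det ((l i)(θ (π j))) = 0` (`Matrix.exists_vecMul_eq_zero_iff`). (4) `y i j = (l i)(θ j) / M` satisfies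
`D (y i j) = D (x) / x` for `x = u i (T, θ j)`: by LGD and `x ^ M = 1 + p ^ 2 (w i)(θ j)` (evaluate
the hypothesis at `θ j`), `D ((l i)(θ j)) x ^ M = D (x ^ M) = M x ^ (M - 1) D x`. (5) AXK with
`κ = Fin r × Fin n`, `e i j = (i, π j)`: the `u i (T, θ j)` are algebraic over `Fld D T`, and if
`D (∏ x ^ m) = 0`, then by CST the product is algebraic over `ℚ`, so `∑ m lam = 0` by RFL. Hence
`det (lam i (π j)) = 0`, a contradiction. -/
def NvnStmt : Prop := LgdStmt → OmgStmt → SphStmt → SpfStmt → RflConcl → CstStmt → AxkConcl →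
  DepStmt → ∀ (p : ℕ) [Fact p.Prime] (r : ℕ) (f : ℤ[X][X]) (u : Fin r → ℤ[X][X]), f.Monic →
  FullRank f u → ∀ t₀ : ℤ, ((sp f t₀).map (Int.castRingHom ℚ)).Separable →
  (∀ i, IsCoprime ((sp f t₀).map (Int.castRingHom ℚ)) ((sp (u i) t₀).map (Int.castRingHom ℚ))) →
  ∀ (T₁ : ℤ) (T : PowerSeries ℤ_[p]),
    T = PowerSeries.C (T₁ : ℤ_[p]) + (p : PowerSeries ℤ_[p]) ^ 2 * PowerSeries.X →
  ∀ (M : ℕ), 0 < M → ∀ w b l : Fin r → (PowerSeries ℤ_[p])[X],
    (∀ i, spr (u i) T ^ M = 1 + C ((p : PowerSeries ℤ_[p]) ^ 2) * w i + spr f T * b i) →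
    (∀ i, LogMod p (spr f T) (w i) (l i)) → (∀ i, (l i).degree < f.natDegree) →
    ∃ J : Fin r → Fin f.natDegree, (Matrix.of fun i k => (l i).coeff (J k)).det ≠ 0

/-- FRK (STRONG, 200 lines). Full rank for the linear families `P - T Q`.
PROOF. Here `f = P - T Q`, `u i = g i`. Let `b i` be a complex root of `g i`; then `Q (b i) = 0`,
`P (b i) ≠ 0`, `g l (b i) ≠ 0` for `l ≠ i` (coprime over `ℚ`). Fix `i` and let `q y ^ e` be the term
of degree `e = natDegree Q` of `Q (b i + y)` (`q ≠ 0`, `e ≥ 1`). For an integer `t` the monic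
polynomial `G(y) = (P - t Q)(b i + y)` of degree `n` has `G(0) = P (b i)` and the coefficient of
`y ^ e` has absolute value at least `|t| |q| - A`. If `y 1, ..., y n` are its roots (none is `0`) and
`ρ` the minimum of the `|y j|`, then by Vieta this coefficient is
`± G(0) e_e (1 / y 1, ..., 1 / y n)`, of absolute value at most `|G(0)| choose(n, e) ρ ^ (- e)`. So
for large `|t|` there is a root `z i = b i + y` of `P - t Q` with `|y| ≤ A |t| ^ (- 1 / e)`. Then
`log |g i (z i)| ≤ - (1 / e) log |t| + A` (`g i` vanishes at `b i`; `g i (z i) ≠ 0`, since otherwise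
`Q (z i) = 0 = P (z i)`, impossible because `g i` and `P` are coprime), and
`log |g l (z i)|` is bounded for `l ≠ i` (`g l (z i)` tends to `g l (b i) ≠ 0`). So in the matrix
`(log |g l (z i)|)` the diagonal entries `d i` have absolute value at least `(1 / (2 e)) log |t|` and
the others are bounded by `A`: every permutation other than the identity moves at least two indices,
so `|det - ∏ d i| ≤ r! ∏ |d i| (A / min |d i|) ^ 2 ≤ (1/2) ∏ |d i|` for large `|t|`
(`A ≥ 1`, `min |d i| ≥ A`), and `|det| ≥ (1/2) (log |t| / (2 e)) ^ r`. For `r = 0` there is nothing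
to prove (`det = 1`). -/
def FrkStmt : Prop := ∀ (P Q : ℤ[X]) (r : ℕ) (g : Fin r → ℤ[X]), P.Monic → Q ≠ 0 →
  Q.natDegree < P.natDegree → (∀ i, 0 < (g i).natDegree) → (∀ i, g i ∣ Q) →
  (∀ i, IsCoprime (P.map (Int.castRingHom ℚ)) ((g i).map (Int.castRingHom ℚ))) →
  (∀ i l, i ≠ l → IsCoprime ((g i).map (Int.castRingHom ℚ)) ((g l).map (Int.castRingHom ℚ))) →
  FullRank (P.map C - C X * Q.map C : ℤ[X][X]) (fun i => (g i).map C)

/-! ### Assembly -/

/-- The index set of the coefficients of a family. -/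
abbrev Idx (n r D : ℕ) : Type := (Fin n × Fin (D + 1)) ⊕ (Fin r × Fin (D + 1) × Fin (D + 1))

/-- The coefficients of a family. -/
noncomputable def par (n : ℕ) {r : ℕ} (D : ℕ) (f : ℤ[X][X]) (u : Fin r → ℤ[X][X]) :
    Idx n r D → ℤ :=
  Sum.elim (fun s => (f.coeff s.1).coeff s.2) (fun s => ((u s.1).coeff s.2.1).coeff s.2.2)

/-- Families of bounded degree. -/
def Fam (n : ℕ) {r : ℕ} (D : ℕ) (f : ℤ[X][X]) (u : Fin r → ℤ[X][X]) : Prop :=
  f.Monic ∧ f.natDegree = n ∧ (∀ j, (f.coeff j).natDegree ≤ D) ∧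
    ∀ i, (u i).natDegree ≤ D ∧ ∀ j, ((u i).coeff j).natDegree ≤ D

/-- The family lies in the class of `a` modulo `p ^ 3`. -/
def InCls (p n : ℕ) {r : ℕ} (D : ℕ) (a : Idx n r D → ℤ) (f : ℤ[X][X]) (u : Fin r → ℤ[X][X]) :
    Prop := Fam n D f u ∧ ∀ s, (p : ℤ) ^ 3 ∣ par n D f u s - a s

/-- The conclusion of UNP. -/
def UnpConcl : Prop := ∀ (p : ℕ) [Fact p.Prime] (r : ℕ) (F : ℤ[X]) (u : Fin r → ℤ[X]),
  F.Monic → (∀ i, ∃ a b c : ℤ[X], u i * a + F * b = 1 + C (p : ℤ) * c) →
  ∃ M : ℕ, 0 < M ∧ ∀ i, ∃ a b : ℤ[X], u i ^ M = 1 + C ((p : ℤ) ^ 2) * a + F * b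

/-- The conclusion of CRI. -/
def CriConcl : Prop := ∀ (p : ℕ) [Fact p.Prime] (r : ℕ) (K : Type) [Field K]
  [NumberField K] (θ : 𝓞 K) (F : ℤ[X]), F.Monic → aeval θ F = 0 →
  IntermediateField.adjoin ℚ {(θ : K)} = ⊤ → Module.finrank ℚ K = F.natDegree →
  ∀ u : Fin r → ℤ[X], (∀ i, IsUnit (aeval θ (u i))) → ∀ M : ℕ, 0 < M →
  ∀ w b l : Fin r → ℤ_[p][X],
    (∀ i, (u i).map (Int.castRingHom ℤ_[p]) ^ M =
      1 + C ((p : ℤ_[p]) ^ 2) * w i + F.map (Int.castRingHom ℤ_[p]) * b i) →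
    (∀ i, LogMod p (F.map (Int.castRingHom ℤ_[p])) (w i) (l i)) →
    (∀ i, (l i).degree < F.natDegree) → Units.rank K ≤ r →
    (∃ J : Fin r → Fin F.natDegree, (Matrix.of fun i k => (l i).coeff (J k)).det ≠ 0) →
    LeopoldtAt K p

/-- The conclusion of NVN. -/
def NvnConcl : Prop := ∀ (p : ℕ) [Fact p.Prime] (r : ℕ) (f : ℤ[X][X]) (u : Fin r → ℤ[X][X]),
  f.Monic → FullRank f u → ∀ t₀ : ℤ, ((sp f t₀).map (Int.castRingHom ℚ)).Separable →
  (∀ i, IsCoprime ((sp f t₀).map (Int.castRingHom ℚ)) ((sp (u i) t₀).map (Int.castRingHom ℚ))) →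
  ∀ (T₁ : ℤ) (T : PowerSeries ℤ_[p]),
    T = PowerSeries.C (T₁ : ℤ_[p]) + (p : PowerSeries ℤ_[p]) ^ 2 * PowerSeries.X →
  ∀ (M : ℕ), 0 < M → ∀ w b l : Fin r → (PowerSeries ℤ_[p])[X],
    (∀ i, spr (u i) T ^ M = 1 + C ((p : PowerSeries ℤ_[p]) ^ 2) * w i + spr f T * b i) →
    (∀ i, LogMod p (spr f T) (w i) (l i)) → (∀ i, (l i).degree < f.natDegree) →
    ∃ J : Fin r → Fin f.natDegree, (Matrix.of fun i k => (l i).coeff (J k)).det ≠ 0

/-- CLA (STRONG, 350 lines). The universal family of a class.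
PROOF. `R = MvPowerSeries (Idx n r D) ℤ_[p]`, noetherian (Mathlib: MvPowerSeries/Equiv,
`isNoetherianRing`), `S = PowerSeries R`, `T = C (C T₁) + p ^ 2 X` in `S`,
`A_s = C (C (a s) + p ^ 2 X_s)` in `S`,
`F = X ^ n + ∑_{j < n, k ≤ D} C (A_(j, k) T ^ k) X ^ j`,
`U i = ∑_{j, k ≤ D} C (A_(i, j, k) T ^ k) X ^ j` in `S[X]`. With
`F₀ = X ^ n + ∑ C (a_(j, k) T₁ ^ k) X ^ j` and `U₀ i` in `ℤ[X]` one has `F = F₀ + C (p ^ 2) (..)`,
`U i = U₀ i + C (p ^ 2) (..)`. The hypothesis (a family of the class and `t ≡ T₁` with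
`sp (u i) t * a + sp f t * b = 1`) gives `U₀ i * a + F₀ * b = 1 + p c`, since
`sp f t ≡ F₀`, `sp (u i) t ≡ U₀ i` modulo `p`. UNP: `U₀ i ^ M = 1 + p ^ 2 a + F₀ b`, hence
`U i ^ M = 1 + C (p ^ 2) * w i + F * b i` over `S`. By PCS and ELL there are `l i` of degree `< n`
with `LogMod p F (w i) (l i)`; `g J = det ((l i).coeff (J k))`.
For `(f, u)` in the class put `x s = (par f u s - a s) / p ^ 2`, divisible by `p`; EVH gives
`φ : R →ₐ ℤ_[p]` with `φ X_s = x s`, and `PowerSeries.map φ` maps `T` to `T₁ + p ^ 2 X`, `F` to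
`spr f T`, `U i` to `spr (u i) T` (both are determined by the coefficients, which are bounded by the
degree conditions of `Fam`); all identities are preserved (`LogMod` too: `φ` is `ℤ_[p]`-linear). -/
def ClaStmt : Prop := EvhStmt → PcsStmt → EllStmt → UnpConcl →
  ∀ (p : ℕ) [Fact p.Prime] (n r D : ℕ) (a : Idx n r D → ℤ) (T₁ : ℤ),
  (∃ (f : ℤ[X][X]) (u : Fin r → ℤ[X][X]), InCls p n D a f u ∧ ∃ t : ℤ, (p : ℤ) ^ 3 ∣ t - T₁ ∧
    ∀ i, ∃ a b : ℤ[X], sp (u i) t * a + sp f t * b = 1) →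
  ∃ (M : ℕ) (_ : 0 < M) (R : Type) (_ : CommRing R) (_ : IsNoetherianRing R)
    (g : (Fin r → Fin n) → PowerSeries R), ∀ (f : ℤ[X][X]) (u : Fin r → ℤ[X][X]),
    InCls p n D a f u → ∀ T : PowerSeries ℤ_[p],
      T = PowerSeries.C (T₁ : ℤ_[p]) + (p : PowerSeries ℤ_[p]) ^ 2 * PowerSeries.X →
      ∃ (φ : R →+* ℤ_[p]) (w b l : Fin r → (PowerSeries ℤ_[p])[X]),
        (∀ i, spr (u i) T ^ M = 1 + C ((p : PowerSeries ℤ_[p]) ^ 2) * w i + spr f T * b i) ∧
        (∀ i, LogMod p (spr f T) (w i) (l i)) ∧ (∀ i, (l i).degree < n) ∧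
        ∀ J : Fin r → Fin n, PowerSeries.map φ (g J) = (Matrix.of fun i k => (l i).coeff (J k)).det

/-- The conclusion of CLA. -/
def ClaConcl : Prop := ∀ (p : ℕ) [Fact p.Prime] (n r D : ℕ) (a : Idx n r D → ℤ) (T₁ : ℤ),
  (∃ (f : ℤ[X][X]) (u : Fin r → ℤ[X][X]), InCls p n D a f u ∧ ∃ t : ℤ, (p : ℤ) ^ 3 ∣ t - T₁ ∧
    ∀ i, ∃ a b : ℤ[X], sp (u i) t * a + sp f t * b = 1) →
  ∃ (M : ℕ) (_ : 0 < M) (R : Type) (_ : CommRing R) (_ : IsNoetherianRing R)
    (g : (Fin r → Fin n) → PowerSeries R), ∀ (f : ℤ[X][X]) (u : Fin r → ℤ[X][X]),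
    InCls p n D a f u → ∀ T : PowerSeries ℤ_[p],
      T = PowerSeries.C (T₁ : ℤ_[p]) + (p : PowerSeries ℤ_[p]) ^ 2 * PowerSeries.X →
      ∃ (φ : R →+* ℤ_[p]) (w b l : Fin r → (PowerSeries ℤ_[p])[X]),
        (∀ i, spr (u i) T ^ M = 1 + C ((p : PowerSeries ℤ_[p]) ^ 2) * w i + spr f T * b i) ∧
        (∀ i, LogMod p (spr f T) (w i) (l i)) ∧ (∀ i, (l i).degree < n) ∧
        ∀ J : Fin r → Fin n, PowerSeries.map φ (g J) = (Matrix.of fun i k => (l i).coeff (J k)).det

/-- CLB (STRONG, 300 lines). The bound in one class.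
PROOF. If no `(f, u)` in the class and `t ≡ T₁` satisfy the hypothesis of CLA, then there is no
exceptional `t` in the class (INV applied to `F = sp f t`, monic of degree `n`), `K = 0`. Otherwise
take `M`, `R`, `g` of CLA and for every `J` the number `K J` of NOE for `g J`; `K = ∑ K J`.
Let `(f, u)` be in the class with full rank. If there is no exceptional `t ≡ T₁` we are done; let
`t₀` be one, with `K`, `θ`: `sp f t₀` is the minimal polynomial of `θ` (monic, right degree), so it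
is irreducible and separable over `ℚ`, and coprime to `sp (u i) t₀` because `u i (t₀, θ) ≠ 0`. NVN
gives `J` with `det ((l i).coeff (J k)) = map φ (g J) ≠ 0`. Every exceptional `t ≡ T₁` gives a zero
`z = (t - T₁) / p ^ 2` (different for different `t`, `‖z‖ < 1`) of this power series: let
`ψ : ℤ_p[[X]] →ₐ ℤ_p`, `ψ X = z` (EVH for one variable); it maps `T` to `t`, `spr f T` to
`(sp f t).map _` and so on, and the images of `w i`, `b i`, `l i` satisfy the hypotheses of CRI; as
`LeopoldtAt K p` fails, all minors of the images of the `l i` vanish, in particular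
`ψ (map φ (g J)) = 0`. STR bounds the number of these zeros by `K J`. -/
def ClbStmt : Prop := EvhStmt → StrStmt → NoeStmt → InvStmt → CriConcl → NvnConcl → ClaConcl →
  ∀ (p : ℕ) [Fact p.Prime] (n r D : ℕ) (a : Idx n r D → ℤ) (T₁ : ℤ), ∃ K : ℕ,
  ∀ (f : ℤ[X][X]) (u : Fin r → ℤ[X][X]), InCls p n D a f u → FullRank f u →
    {t : ℤ | (p : ℤ) ^ 3 ∣ t - T₁ ∧ Exceptional p f u t}.encard ≤ K

/-- The main theorem. -/
def MainStmt : Prop := ∀ (p : ℕ) [Fact p.Prime] (n r D : ℕ), ∃ K : ℕ,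
  ∀ (f : ℤ[X][X]) (u : Fin r → ℤ[X][X]), f.Monic → f.natDegree = n →
    (∀ j, (f.coeff j).natDegree ≤ D) →
    (∀ i, (u i).natDegree ≤ D ∧ ∀ j, ((u i).coeff j).natDegree ≤ D) → FullRank f u →
    {t : ℤ | Exceptional p f u t}.encard ≤ K

/-- TOT (100 lines). Sum over the classes.
PROOF. There are finitely many classes: `a : Idx n r D → ZMod (p ^ 3)` and `T₁ : ZMod (p ^ 3)` (take
representatives `a s = (c s).val`, `T₁ = c.val`). Let `K` be the sum (or the maximum times `p ^ 3`)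
of the bounds of all classes; the exceptional set of a family is the union over the `p ^ 3`
classes of `t` of the sets of CLB, for the class of `par f u`. -/
def TotStmt : Prop := (∀ (p : ℕ) [Fact p.Prime] (n r D : ℕ) (a : Idx n r D → ℤ) (T₁ : ℤ),
  ∃ K : ℕ, ∀ (f : ℤ[X][X]) (u : Fin r → ℤ[X][X]), InCls p n D a f u → FullRank f u →
    {t : ℤ | (p : ℤ) ^ 3 ∣ t - T₁ ∧ Exceptional p f u t}.encard ≤ K) → MainStmt

/-- LIN (100 lines). The linear families.
PROOF. `f = P - T Q` as in FRK, `n = natDegree P`, `D = n` (the degrees in `T` are at most one, the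
`g i` have degree at most `natDegree Q < n`; if `n = 0` there is nothing to prove since then
`Q.natDegree < 0` is impossible), `r ≤ n` so the bound can be taken as the maximum over `r ≤ n`
(the `g i` are non-constant, pairwise coprime divisors of `Q ≠ 0`, so `r ≤ natDegree Q`). An
exceptional `t` in the sense of this statement is one in the sense of `Exceptional`: `sp f t =
P - C t * Q`, and `g i (θ)` is a unit of `𝓞 K`: it divides `Q (θ)`... precisely, from
`P * a + g i * b = 1` in `ℤ[X]` and `P(θ) = t Q(θ) = t g i(θ) q(θ)` we get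
`g i(θ) (t q(θ) a(θ) + b(θ)) = 1`. -/
def LinStmt : Prop := FrkStmt → MainStmt → ∀ (p : ℕ) [Fact p.Prime] (n : ℕ), ∃ K : ℕ,
  ∀ (P Q : ℤ[X]) (r : ℕ) (g : Fin r → ℤ[X]), P.Monic → P.natDegree = n → Q ≠ 0 →
    Q.natDegree < n → (∀ i, 0 < (g i).natDegree) → (∀ i, g i ∣ Q) → (∀ i, IsCoprime P (g i)) →
    (∀ i l, i ≠ l → IsCoprime ((g i).map (Int.castRingHom ℚ)) ((g l).map (Int.castRingHom ℚ))) →
    {t : ℤ | ∃ (K : Type) (_ : Field K) (_ : NumberField K) (θ : K),
      aeval θ (P - C t * Q) = 0 ∧ IntermediateField.adjoin ℚ {θ} = ⊤ ∧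
      Module.finrank ℚ K = n ∧ Units.rank K ≤ r ∧ ¬ LeopoldtAt K p}.encard ≤ K

end Pool.Agent.LUB
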